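import Mathlib
import Pool.Agent.Lib.MP_1f4710_co.HDefs
import Pool.Agent.Lib.MP_1f4710_co.HEx

namespace Pool.Agent.Results.MP_1f4710_co.Orthocentric

open Pool.Agent.Lib.MP_1f4710_co

/-- For `k ≥ 3` and `d ≥ k - 1` the maximal number of modes of a mixture of `k` normal densities
with a common covariance matrix and means at squared Mahalanobis distances `β i + β j`, `β i > 0`,
is `k + 1`. -/
theorem result (d k : ℕ) (hk : 3 ≤ k) (hd : k - 1 ≤ d) : orthoModes d k = ((k + 1 : ℕ) : ℕ∞) := by
  obtain ⟨n, rfl⟩ : ∃ n, k = n + 1 := ⟨k - 1, by omega⟩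
  exact le_antisymm (Hom.orthoModes_le d _ (by omega))
    (Hom.le_orthoModes (by omega) (by omega))

end Pool.Agent.Results.MP_1f4710_co.Orthocentric
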